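import Pool.Agent.H87.CLG.Targets

set_option autoImplicit false

open MvPolynomial
open scoped commutatorElement

namespace Pool.Agent.H61.CLG

open Pool.Agent.H87.CLG

universe u v

theorem pf_LEM : T_LEM := by
  intro Λ n r K u v c hr hK hE a ha
  obtain ⟨σ, hσ, hle⟩ := hE
  obtain ⟨f, hf, hfa, hft⟩ := ha
  have hinj : Function.Injective (Prod.map σ (id : Λ → Λ)) :=
    hσ.injective.prodMap Function.injective_id
  set w : Mo Λ := v - shm σ u with hw
  have hwv : w + shm σ u = v := by rw [hw]; exact tsub_add_cancel_of_le hle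
  refine ⟨(monomial w (1 : ℤ)) • (fun c => sh σ (f c)), K.smul_mem _ (hK σ hσ f hf), ?_, ?_⟩
  · show coeff v ((monomial w (1 : ℤ)) * sh σ (f c)) = a
    rw [← hwv, coeff_monomial_mul, one_mul]
    show coeff (shm σ u) (rename (Prod.map σ (id : Λ → Λ)) (f c)) = a
    unfold shm
    rw [coeff_rename_mapDomain _ hinj]
    exact hfa
  · rintro ⟨x, e⟩ hx
    have hx' : coeff x ((monomial w (1 : ℤ)) * sh σ (f e)) ≠ 0 := hx
    rw [coeff_monomial_mul'] at hx'
    have hwx : w ≤ x := by
      by_contra hcon
      rw [if_neg hcon] at hx'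
      exact hx' rfl
    rw [if_pos hwx, one_mul] at hx'
    obtain ⟨y', hy', hy0⟩ := coeff_rename_ne_zero (Prod.map σ (id : Λ → Λ)) (f e) (x - w) hx'
    have hxe : x = shm σ y' + w := by
      have h1 : shm σ y' = x - w := hy'
      rw [h1]
      exact (tsub_add_cancel_of_le hwx).symm
    have hve : v = shm σ u + w := by rw [← hwv, add_comm]
    rcases hft (y', e) hy0 with h | h
    · left
      have h1 : y' = u := congrArg Prod.fst h
      have h2 : e = c := congrArg Prod.snd h
      rw [hxe, hve, h1, h2]
    · right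
      rcases h with h | ⟨h1, h2⟩
      · left
        show r x v
        rw [hxe, hve]
        exact hr.add _ _ _ (hr.shift σ _ _ hσ h)
      · right
        refine ⟨?_, h2⟩
        show x = v
        have h1' : y' = u := h1
        rw [hxe, hve, h1']

end Pool.Agent.H61.CLG
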